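import Mathlib
import Pool.Agent.Helper97.MC.Final

/-!
# A lower bound for the complexity of many cells in an arrangement of circles

The definitions are in `Pool/Agent/Helper97/MC/Defs.lean`.  The Euclidean plane is `ℂ`.  For a set `𝒞` of circles, `vertices 𝒞` is the
set of the points lying on at least two circles, `edges 𝒞` the set of the connected components of the
circles after removing the vertices, `cells 𝒞` the set of the connected components of the complement
of the union of the circles, `complexity 𝒞 c` the number of the vertices and edges on the boundary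
of the cell `c`, and `K m n` the maximum of the total complexity of `m` distinct cells in an arrangement
of `n` distinct circles.
-/

namespace Pool.Agent.Results.MP_a40b4e_co.CirclesLowerBound

open Pool.Agent.Helper97.MC

/-- For `n ^ (1/3) ≤ m ≤ n / 48` the maximum `K(m, n)` exists and is at least
`m ^ (1/2) * n ^ (5/6) / 48`. -/
theorem result (m n : ℕ) (hn : 1 ≤ n) (h1 : (n : ℝ) ^ (1 / 3 : ℝ) ≤ m) (h2 : 48 * m ≤ n) :
    IsGreatest (totals m n) (K m n) ∧
      (m : ℝ) ^ (1 / 2 : ℝ) * (n : ℝ) ^ (5 / 6 : ℝ) ≤ 48 * K m n :=
  main m n hn h1 h2

end Pool.Agent.Results.MP_a40b4e_co.CirclesLowerBound
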